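import Pool.Agent.MP_caba0b_al.H43.Iface

/-! Simultaneous unitary diagonalisation and the continuous characters of the circle. -/

namespace Pool.Agent.MP_caba0b_al.H96

open Pool.Agent.MP_caba0b_al.H43 Module Matrix

/-- continuous characters of the circle are integer powers -/
lemma circle_char (χ : Circle →* Circle) (hχ : Continuous χ) : ∃ k : ℤ, ∀ z, χ z = z ^ k := by
  let f : C(ℝ, Circle) := ⟨fun t => χ (Circle.exp t), hχ.comp Circle.exp.continuous⟩
  obtain ⟨F, ⟨F0, hF⟩, -⟩ :=
    Circle.isCoveringMap_exp.existsUnique_continuousMap_lifts f 0 0 (by simp [f])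
  have hF' : ∀ t, Circle.exp (F t) = χ (Circle.exp t) := fun t => congrFun hF t
  have hadd : ∀ s t, F (s + t) = F s + F t := by
    intro s t
    have := Circle.isCoveringMap_exp.eq_of_comp_eq (g₁ := fun t => F (s + t))
      (g₂ := fun t => F s + F t) (by fun_prop) (by fun_prop)
      (by funext t; simp [hF', Circle.exp_add]) 0 (by simp [F0])
    exact congrFun this t
  let G : ℝ →+ ℝ := { toFun := F, map_zero' := F0, map_add' := hadd }
  have hlin : ∀ t, F t = t * F 1 := by
    intro t
    have := map_real_smul G F.continuous t 1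
    simpa [G] using this
  have h2 : Circle.exp (F (2 * Real.pi)) = 1 := by
    rw [hF', Circle.exp_two_pi, map_one]
  obtain ⟨k, hk⟩ := Circle.exp_eq_one.1 h2
  have hk' : F 1 = k := by
    rw [hlin] at hk
    have : (2 * Real.pi) ≠ 0 := by positivity
    apply mul_left_cancel₀ this
    rw [hk, mul_comm]
  refine ⟨k, fun z => ?_⟩
  obtain ⟨t, rfl⟩ := Circle.exp_surjective z
  rw [← hF', hlin, hk', mul_comm, Circle.exp_intCast_mul]

/-- a commuting family of Hermitian matrices has an orthonormal basis of joint eigenvectors -/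
lemma joint {ι : Type} {n : ℕ} (A : ι → Matrix (Fin n) (Fin n) ℂ) (hA : ∀ i, (A i).IsHermitian)
    (hC : ∀ i j, A i * A j = A j * A i) :
    ∃ b : OrthonormalBasis (Fin n) ℂ (EuclideanSpace ℂ (Fin n)),
      ∀ a i, ∃ c : ℂ, A i *ᵥ (b a).ofLp = c • (b a).ofLp := by
  classical
  let T : ι → Module.End ℂ (EuclideanSpace ℂ (Fin n)) := fun i => (A i).toEuclideanLin
  have hT : ∀ i, (T i).IsSymmetric := fun i => isSymmetric_toEuclideanLin_iff.2 (hA i)
  have hTC : Pairwise (Function.onFun Commute T) := by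
    intro i j _
    change T i * T j = T j * T i
    ext1 v
    simp [T, Matrix.toEuclideanLin, Matrix.toLpLin_apply, Matrix.mulVec_mulVec, hC i j]
  have hint := LinearMap.IsSymmetric.directSum_isInternal_of_pairwise_commute hT hTC
  have horth := LinearMap.IsSymmetric.orthogonalFamily_iInf_eigenspaces hT
  set V : (ι → ℂ) → Submodule ℂ (EuclideanSpace ℂ (Fin n)) :=
    fun α => ⨅ j, Module.End.eigenspace (T j) (α j) with hV
  have hfin : {α | V α ≠ ⊥}.Finite :=
    WellFoundedGT.finite_ne_bot_of_iSupIndep hint.submodule_iSupIndep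
  have : Fintype {α // V α ≠ ⊥} := hfin.fintype
  have hint' := DirectSum.isInternal_ne_bot_iff.2 hint
  have horth' : OrthogonalFamily ℂ (fun i : {α // V α ≠ ⊥} => V i)
      fun i => (V i).subtypeₗᵢ := horth.comp Subtype.val_injective
  refine ⟨hint'.subordinateOrthonormalBasis finrank_euclideanSpace_fin horth', fun a i => ?_⟩
  have hm := hint'.subordinateOrthonormalBasis_subordinate finrank_euclideanSpace_fin a horth'
  have hm' := (Submodule.mem_iInf _).1 hm i
  rw [Module.End.mem_eigenspace_iff] at hm'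
  exact ⟨_, congrArg WithLp.ofLp hm'⟩

/-- a commuting family of normal matrices is unitarily diagonalisable -/
lemma joint_unitary {ι : Type} {n : ℕ} (A : ι → Matrix (Fin n) (Fin n) ℂ)
    (hC : ∀ i j, A i * A j = A j * A i) (hC' : ∀ i j, A i * (A j)ᴴ = (A j)ᴴ * A i) :
    ∃ (u : U n) (c : ι → Fin n → ℂ), ∀ i,
      A i * (u : Matrix (Fin n) (Fin n) ℂ) = u * Matrix.diagonal (c i) := by
  have hC'' : ∀ i j, (A i)ᴴ * (A j)ᴴ = (A j)ᴴ * (A i)ᴴ := fun i j => by
    rw [← conjTranspose_mul, ← conjTranspose_mul, hC]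
  let B : ι × Bool → Matrix (Fin n) (Fin n) ℂ := fun p =>
    if p.2 then A p.1 + (A p.1)ᴴ else Complex.I • (A p.1 - (A p.1)ᴴ)
  have hB : ∀ p, (B p).IsHermitian := by
    rintro ⟨i, _ | _⟩
    · simp only [B, Matrix.IsHermitian, Bool.false_eq_true, if_false, conjTranspose_smul,
        conjTranspose_sub, conjTranspose_conjTranspose]
      rw [Complex.star_def, Complex.conj_I, neg_smul, ← smul_neg, neg_sub]
    · simp [B, Matrix.IsHermitian, add_comm]
  have hBC : ∀ p q, B p * B q = B q * B p := by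
    rintro ⟨i, _ | _⟩ ⟨j, _ | _⟩ <;>
    · simp only [B, Bool.false_eq_true, if_false, if_true, Matrix.smul_mul, Matrix.mul_smul,
        Matrix.add_mul, Matrix.mul_add, Matrix.sub_mul, Matrix.mul_sub, hC i j, hC' i j,
        ← hC' j i, hC'' i j]
      module
  obtain ⟨b, hb⟩ := joint B hB hBC
  have hb' : ∀ a i, ∃ c : ℂ, A i *ᵥ (b a).ofLp = c • (b a).ofLp := by
    intro a i
    obtain ⟨c, hc⟩ := hb a (i, true)
    obtain ⟨d, hd⟩ := hb a (i, false)
    refine ⟨(c - Complex.I * d) / 2, ?_⟩
    have : A i = (1 / 2 : ℂ) • (B (i, true) - Complex.I • B (i, false)) := by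
      simp only [B, Bool.false_eq_true, if_false, if_true, smul_smul, Complex.I_mul_I]
      module
    rw [this, Matrix.smul_mulVec, Matrix.sub_mulVec, Matrix.smul_mulVec, hc, hd]
    module
  choose c hc using hb'
  refine ⟨⟨(EuclideanSpace.basisFun (Fin n) ℂ).toBasis.toMatrix b,
    OrthonormalBasis.toMatrix_orthonormalBasis_mem_unitary _ _⟩, fun i a => c a i, fun i => ?_⟩
  ext r a
  have := congrFun (hc a i) r
  simp only [Matrix.mul_diagonal]
  simpa [Matrix.mul_apply, Module.Basis.toMatrix_apply, Matrix.mulVec, dotProduct, mul_comm]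
    using this

theorem diag : DiagStmt := by
  refine ⟨fun H _ _ n ρ hρ => ?_, circle_char⟩
  have hst : ∀ h, ((ρ h : Matrix (Fin n) (Fin n) ℂ))ᴴ = (ρ h⁻¹ : U n) := by
    intro h
    rw [map_inv]
    rfl
  have hmul : ∀ g h, (ρ g : Matrix (Fin n) (Fin n) ℂ) * ρ h = (ρ (g * h) : U n) := by
    intro g h
    rw [map_mul]
    rfl
  obtain ⟨u, c, hc⟩ := joint_unitary (fun h => (ρ h : Matrix (Fin n) (Fin n) ℂ))
    (fun g h => by rw [hmul, hmul, mul_comm])
    (fun g h => by rw [hst, hmul, hmul, mul_comm])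
  have hu : (u : Matrix (Fin n) (Fin n) ℂ)ᴴ * u = 1 := Matrix.mem_unitaryGroup_iff'.1 u.2
  have hd : ∀ h, ((u⁻¹ * ρ h * u : U n) : Matrix (Fin n) (Fin n) ℂ) = Matrix.diagonal (c h) := by
    intro h
    change (u : Matrix (Fin n) (Fin n) ℂ)ᴴ * ρ h * u = _
    rw [Matrix.mul_assoc, hc, ← Matrix.mul_assoc, hu, Matrix.one_mul]
  have hn : ∀ h i, ‖c h i‖ = 1 := by
    intro h i
    have h1 := Matrix.mem_unitaryGroup_iff.1 (u⁻¹ * ρ h * u : U n).2
    rw [hd, Matrix.star_eq_conjTranspose, Matrix.diagonal_conjTranspose,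
      Matrix.diagonal_mul_diagonal] at h1
    have h2 := congrFun (congrFun h1 i) i
    simp only [Matrix.diagonal_apply_eq, Pi.star_apply, Matrix.one_apply_eq,
      Complex.star_def, Complex.mul_conj, Complex.normSq_eq_norm_sq] at h2
    have h3 : ‖c h i‖ ^ 2 = 1 := by exact_mod_cast h2
    exact (pow_eq_one_iff_of_nonneg (norm_nonneg _) two_ne_zero).1 h3
  have hcm : ∀ g h i, c (g * h) i = c g i * c h i := by
    intro g h i
    have h1 : (u⁻¹ * ρ (g * h) * u : U n) = (u⁻¹ * ρ g * u) * (u⁻¹ * ρ h * u) := by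
      rw [map_mul]
      group
    have h2 := hd (g * h)
    rw [h1, Submonoid.coe_mul, hd, hd, Matrix.diagonal_mul_diagonal] at h2
    simpa using (congrFun (congrFun h2 i) i).symm
  let χ : Fin n → H →* Circle := fun i => MonoidHom.mk'
    (fun h => ⟨c h i, by simpa [Submonoid.unitSphere] using hn h i⟩)
    (fun g h => Circle.ext (hcm g h i))
  refine ⟨u, χ, fun i => ?_, fun h => ?_⟩
  · refine Continuous.subtype_mk ?_ _
    have : (fun h => c h i) =
        fun h => ((u⁻¹ * ρ h * u : U n) : Matrix (Fin n) (Fin n) ℂ) i i := by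
      funext h
      rw [hd, Matrix.diagonal_apply_eq]
    rw [this]
    exact (continuous_subtype_val.comp ((continuous_const.mul hρ).mul continuous_const)).matrix_elem
      i i
  · have : diagU (fun i => χ i h) = u⁻¹ * ρ h * u := Subtype.ext (hd h).symm
    rw [this]
    group

end Pool.Agent.MP_caba0b_al.H96
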